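import Pool.Agent.W307.LS.Stm

set_option autoImplicit false

/-! Points over `ℚ_[p]` in given square classes. -/

namespace Pool.Agent.W605.LS

open Finset Polynomial Pool.Agent.W307.LS

section

variable {p : ℕ} [hp : Fact p.Prime]

lemma sqz (hp2 : p ≠ 2) (n : ℤ) (hn : ¬ (p : ℤ) ∣ n)
    (h : IsSquare (n : ZMod p)) : ∃ z : ℤ_[p], z ^ 2 = n := by
  obtain ⟨a, ha⟩ := h
  obtain ⟨s, hs⟩ := ZMod.intCast_surjective a
  have h1 : (p : ℤ) ∣ s ^ 2 - n := by
    rw [← ZMod.intCast_zmod_eq_zero_iff_dvd]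
    push_cast
    rw [ha, hs]
    ring
  have h2 : ¬ (p : ℤ) ∣ 2 * s := by
    intro h2
    have hpi : Prime (p : ℤ) := Nat.prime_iff_prime_int.1 hp.out
    rcases hpi.dvd_or_dvd h2 with h3 | h3
    · have h5 : p ∣ 2 := by exact_mod_cast h3
      exact hp2 ((Nat.prime_dvd_prime_iff_eq hp.out Nat.prime_two).1 h5)
    · apply hn
      have := dvd_sub ((dvd_pow h3 two_ne_zero : (p : ℤ) ∣ s ^ 2)) h1
      simpa using this
  have e1 : ∀ w : ℤ_[p], (aeval w) (X ^ 2 - C (n : ℤ_[p]) : ℤ_[p][X]) = w ^ 2 - n := by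
    intro w; simp
  have e2 : ∀ w : ℤ_[p], (aeval w) (derivative (X ^ 2 - C (n : ℤ_[p]) : ℤ_[p][X])) = 2 * w := by
    intro w; simp; norm_num
  obtain ⟨z, hz, -⟩ := hensels_lemma (p := p) (R := ℤ_[p]) (F := X ^ 2 - C (n : ℤ_[p]))
    (a := (s : ℤ_[p])) (by
      rw [e1, e2]
      have h3 : ‖((s ^ 2 - n : ℤ) : ℤ_[p])‖ < 1 := by
        rw [PadicInt.norm_intCast_lt_one_iff]
        exact h1
      have h4 : ‖((2 * s : ℤ) : ℤ_[p])‖ = 1 := by
        have h5 : ¬ ‖((2 * s : ℤ) : ℤ_[p])‖ < 1 := by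
          rw [PadicInt.norm_intCast_lt_one_iff]
          exact h2
        exact le_antisymm (PadicInt.norm_le_one _) (not_lt.1 h5)
      push_cast at h3 h4
      rw [h4, one_pow]
      exact h3)
  refine ⟨z, ?_⟩
  rw [e1] at hz
  exact sub_eq_zero.1 hz

/-- Hensel for squares -/
lemma sqp (hp2 : p ≠ 2) (n : ℤ) (hn : ¬ (p : ℤ) ∣ n)
    (h : IsSquare (n : ZMod p)) : ∃ z : ℚ_[p], z ^ 2 = n := by
  obtain ⟨z, hz⟩ := sqz hp2 n hn h
  refine ⟨(z : ℚ_[p]), ?_⟩
  rw [← PadicInt.coe_pow, hz, PadicInt.coe_intCast]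

lemma sq_mul {x y : ZMod p} (hx : ¬ IsSquare x) (hy : ¬ IsSquare y) : IsSquare (x * y) := by
  have hx0 : x ≠ 0 := by rintro rfl; exact hx IsSquare.zero
  have hy0 : y ≠ 0 := by rintro rfl; exact hy IsSquare.zero
  rw [← quadraticChar_one_iff_isSquare (mul_ne_zero hx0 hy0), map_mul,
    quadraticChar_neg_one_iff_not_isSquare.2 hx, quadraticChar_neg_one_iff_not_isSquare.2 hy]
  norm_num

lemma cast_ne {n : ℤ} (h : ¬ (p : ℤ) ∣ n) : (n : ZMod p) ≠ 0 := by
  rwa [Ne, ZMod.intCast_zmod_eq_zero_iff_dvd]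

lemma ne_zero' {n : ℤ} (h : ¬ (p : ℤ) ∣ n) : (n : ℚ_[p]) ≠ 0 := by
  have : n ≠ 0 := by rintro rfl; exact h (dvd_zero _)
  exact_mod_cast this

lemma ndvd_mul {m n : ℤ} (hm : ¬ (p : ℤ) ∣ m) (hn : ¬ (p : ℤ) ∣ n) : ¬ (p : ℤ) ∣ m * n := by
  intro h
  rcases (Nat.prime_iff_prime_int.1 hp.out).dvd_or_dvd h with h | h
  · exact hm h
  · exact hn h

lemma ndvd_two (hp2 : p ≠ 2) : ¬ (p : ℤ) ∣ 2 := by
  intro h
  have h5 : p ∣ 2 := by exact_mod_cast h
  exact hp2 ((Nat.prime_dvd_prime_iff_eq hp.out Nat.prime_two).1 h5)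

lemma ndvd_four (hp2 : p ≠ 2) : ¬ (p : ℤ) ∣ 4 := by
  have := ndvd_mul (ndvd_two hp2) (ndvd_two hp2)
  norm_num at this
  exact this

/-- a point whose `x`-coordinate is an integral unit -/
lemma rep_of (hp2 : p ≠ 2) (a b d X : ℤ) (hX : ¬ (p : ℤ) ∣ X) (hd : ¬ (p : ℤ) ∣ d)
    (hs : IsSquare ((X * d : ℤ) : ZMod p)) (y : ℚ_[p])
    (hy : y ^ 2 = (X : ℚ_[p]) * (X - 4 * a) * (X - 4 * b)) : Rep a b ℚ_[p] d := by
  obtain ⟨z, hz⟩ := sqp hp2 (X * d) (ndvd_mul hX hd) hs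
  have hd0 := ne_zero' hd
  have hX0 := ne_zero' hX
  refine Or.inr ⟨X, y, z / d, ?_, ?_, hy⟩
  · have hz0 : z ≠ 0 := by
      rintro rfl
      push_cast at hz
      have : (X : ℚ_[p]) * d = 0 := by rw [← hz]; ring
      exact mul_ne_zero hX0 hd0 this
    exact div_ne_zero hz0 hd0
  · rw [div_pow, hz]
    push_cast
    field_simp

lemma sum_char_sq_sub {c : ZMod p} (hp2 : p ≠ 2) (hc : c ≠ 0) :
    ∑ x : ZMod p, quadraticChar (ZMod p) (x ^ 2 - c) = -1 := by
  have hF : ringChar (ZMod p) ≠ 2 := by rwa [ZMod.ringChar_zmod_n]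
  have h1 : ∑ x : ZMod p, quadraticChar (ZMod p) (x ^ 2 - c)
      = ∑ y : ZMod p, (quadraticChar (ZMod p) y + 1) * quadraticChar (ZMod p) (y - c) := by
    rw [← Finset.sum_fiberwise (s := Finset.univ) (g := fun x : ZMod p => x ^ 2)]
    refine Finset.sum_congr rfl fun y _ => ?_
    rw [← quadraticChar_card_sqrts hF y]
    rw [Finset.sum_congr (g := fun _ => quadraticChar (ZMod p) (y - c)) rfl]
    · rw [Finset.sum_const, nsmul_eq_mul]
      congr 2
      have : ({x : ZMod p | x ^ 2 = y} : Set (ZMod p)).toFinset =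
          Finset.univ.filter (fun x : ZMod p => x ^ 2 = y) := by
        ext x; simp
      rw [this]
    · intro x hx
      simp only [Finset.mem_filter, Finset.mem_univ, true_and] at hx
      rw [hx]
  rw [h1]
  simp only [add_mul, one_mul, Finset.sum_add_distrib]
  have h2 : ∑ y : ZMod p, quadraticChar (ZMod p) (y - c) = 0 := by
    rw [← quadraticChar_sum_zero hF]
    exact Equiv.sum_comp (Equiv.subRight c) (fun y => quadraticChar (ZMod p) y)
  have h3 : ∑ y : ZMod p, quadraticChar (ZMod p) y * quadraticChar (ZMod p) (y - c) = -1 := by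
    rw [← Equiv.sum_comp (Equiv.mulLeft₀ c hc)]
    have hneg : quadraticChar (ZMod p) (-1) * quadraticChar (ZMod p) (-1) = 1 := by
      rw [← map_mul]; simp
    have h4 : ∀ z : ZMod p, quadraticChar (ZMod p) (Equiv.mulLeft₀ c hc z) *
        quadraticChar (ZMod p) (Equiv.mulLeft₀ c hc z - c)
        = quadraticChar (ZMod p) (-1) *
          (quadraticChar (ZMod p) z * quadraticChar (ZMod p) (1 - z)) := by
      intro z
      simp only [Equiv.mulLeft₀_apply]
      have h5 : quadraticChar (ZMod p) c * quadraticChar (ZMod p) c = 1 := by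
        rw [← sq]; exact quadraticChar_sq_one hc
      have h6 : c * z - c = c * (-1 * (1 - z)) := by ring
      rw [h6, map_mul, map_mul, map_mul]
      linear_combination (quadraticChar (ZMod p) z * quadraticChar (ZMod p) (-1) *
        quadraticChar (ZMod p) (1 - z)) * h5
    simp only [h4]
    rw [← Finset.mul_sum]
    have h7 := jacobiSum_nontrivial_inv (quadraticChar_ne_one hF)
    rw [(quadraticChar_isQuadratic (ZMod p)).inv] at h7
    unfold jacobiSum at h7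
    rw [h7]
    linear_combination (-1) * hneg
  rw [h2, h3]
  norm_num

lemma sum_char_two (hp2 : p ≠ 2) {α β : ZMod p} (h : α ≠ β) :
    ∑ x : ZMod p, quadraticChar (ZMod p) ((x - α) * (x - β)) = -1 := by
  have h20 : (2 : ZMod p) ≠ 0 := by
    have := cast_ne (ndvd_two hp2)
    exact_mod_cast this
  have hc : ((α - β) / 2) ^ 2 ≠ 0 := pow_ne_zero 2 (div_ne_zero (sub_ne_zero.2 h) h20)
  rw [← sum_char_sq_sub hp2 hc, ← Equiv.sum_comp (Equiv.addRight ((α + β) / 2))]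
  refine Finset.sum_congr rfl fun x _ => ?_
  congr 1
  simp only [Equiv.coe_addRight]
  field_simp
  ring

lemma char_ge (x : ZMod p) (h : ¬ quadraticChar (ZMod p) x = -1) :
    0 ≤ quadraticChar (ZMod p) x := by
  by_cases hx : x = 0
  · rw [hx, quadraticChar_zero]
  · rcases quadraticChar_dichotomy hx with h1 | h1
    · rw [h1]; norm_num
    · exact absurd h1 h

lemma char_ge' (x : ZMod p) : -1 ≤ quadraticChar (ZMod p) x := by
  by_cases hx : x = 0
  · rw [hx, quadraticChar_zero]; norm_num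
  · rcases quadraticChar_dichotomy hx with h1 | h1 <;> rw [h1] <;> norm_num

lemma exG (hp2 : p ≠ 2) {α β : ZMod p} (hα : α ≠ 0) (hβ : β ≠ 0) (h : α ≠ β) (sα : IsSquare α)
    (sβ : IsSquare β) : ∃ x : ZMod p, ¬ IsSquare x ∧ x * (x - α) * (x - β) ≠ 0 ∧
      IsSquare (x * (x - α) * (x - β)) := by
  have hF : ringChar (ZMod p) ≠ 2 := by rwa [ZMod.ringChar_zmod_n]
  by_contra hcon
  push Not at hcon
  have h1 := sum_char_two hp2 h
  have h2 := quadraticChar_sum_zero hF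
  have h3 : ∀ x : ZMod p, 0 ≤ quadraticChar (ZMod p) ((x - α) * (x - β)) +
      quadraticChar (ZMod p) x := by
    intro x
    by_cases hx0 : x = 0
    · have e : (x - α) * (x - β) = α * β := by rw [hx0]; ring
      rw [e, hx0, quadraticChar_zero, add_zero, (quadraticChar_one_iff_isSquare (mul_ne_zero hα hβ)).2
        (sα.mul sβ)]
      norm_num
    · by_cases hs : IsSquare x
      · rw [(quadraticChar_one_iff_isSquare hx0).2 hs]
        have := char_ge' ((x - α) * (x - β))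
        linarith
      · have hxα : x - α ≠ 0 := by
          intro h4
          rw [sub_eq_zero.1 h4] at hs
          exact hs sα
        have hxβ : x - β ≠ 0 := by
          intro h4
          rw [sub_eq_zero.1 h4] at hs
          exact hs sβ
        have h5 : x * (x - α) * (x - β) ≠ 0 := mul_ne_zero (mul_ne_zero hx0 hxα) hxβ
        have h6 := hcon x hs h5
        rw [← quadraticChar_neg_one_iff_not_isSquare, mul_assoc, map_mul,
          quadraticChar_neg_one_iff_not_isSquare.2 hs] at h6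
        rw [quadraticChar_neg_one_iff_not_isSquare.2 hs]
        linarith
  have h4 : 0 ≤ ∑ x : ZMod p, (quadraticChar (ZMod p) ((x - α) * (x - β)) +
      quadraticChar (ZMod p) x) := Finset.sum_nonneg (fun x _ => h3 x)
  rw [Finset.sum_add_distrib, h1, h2] at h4
  norm_num at h4

lemma exS (hp2 : p ≠ 2) {β : ZMod p} (hβ : β ≠ 0) : ∃ t : ZMod p, ¬ IsSquare (β + t ^ 2) := by
  by_contra hcon
  push Not at hcon
  have h1 := sum_char_sq_sub hp2 (neg_ne_zero.2 hβ)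
  have h4 : 0 ≤ ∑ x : ZMod p, quadraticChar (ZMod p) (x ^ 2 - -β) := by
    refine Finset.sum_nonneg (fun x _ => ?_)
    apply char_ge
    rw [quadraticChar_neg_one_iff_not_isSquare, not_not]
    have := hcon x
    rwa [add_comm, ← sub_neg_eq_add] at this
  rw [h1] at h4
  norm_num at h4

lemma jac_one {d : ℤ} (h : jacobiSym d p = 1) : ¬ (p : ℤ) ∣ d ∧ IsSquare (d : ZMod p) := by
  rw [← jacobiSym.legendreSym.to_jacobiSym] at h
  have h0 : (d : ZMod p) ≠ 0 := by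
    intro h0
    rw [(legendreSym.eq_zero_iff p d).2 h0] at h
    norm_num at h
  refine ⟨?_, (legendreSym.eq_one_iff p h0).1 h⟩
  rwa [Ne, ZMod.intCast_zmod_eq_zero_iff_dvd] at h0

end

theorem ptg : PTG := by
  intro p hp a b d hp2 ha hb hab hd
  by_cases hs : IsSquare (d : ZMod p)
  · exact Or.inl (sqp hp2 d hd hs)
  have h4 := ndvd_four hp2
  have h4a := ndvd_mul h4 ha
  have h4b := ndvd_mul h4 hb
  have sq4 : IsSquare ((4 : ℤ) : ZMod p) := ⟨2, by norm_num⟩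
  by_cases sa : IsSquare (a : ZMod p)
  · by_cases sb : IsSquare (b : ZMod p)
    · have hne : ((4 * a : ℤ) : ZMod p) ≠ ((4 * b : ℤ) : ZMod p) := by
        intro h
        apply ndvd_mul h4 hab
        rw [← ZMod.intCast_zmod_eq_zero_iff_dvd]
        push_cast at h ⊢
        linear_combination h
      obtain ⟨x, hx1, hx2, hx3⟩ := exG hp2 (cast_ne h4a) (cast_ne h4b) hne
        (by push_cast; push_cast at sq4; exact sq4.mul sa)
        (by push_cast; push_cast at sq4; exact sq4.mul sb)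
      obtain ⟨X, rfl⟩ := ZMod.intCast_surjective x
      have hX : ¬ (p : ℤ) ∣ X := by
        rw [← ZMod.intCast_zmod_eq_zero_iff_dvd]
        intro h
        rw [h] at hx1
        exact hx1 IsSquare.zero
      have e : (X : ZMod p) * (X - ((4 * a : ℤ) : ZMod p)) * (X - ((4 * b : ℤ) : ZMod p)) =
          ((X * (X - 4 * a) * (X - 4 * b) : ℤ) : ZMod p) := by push_cast; ring
      rw [e] at hx2 hx3
      obtain ⟨y, hy⟩ := sqp hp2 (X * (X - 4 * a) * (X - 4 * b))
        (by rwa [Ne, ZMod.intCast_zmod_eq_zero_iff_dvd] at hx2) hx3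
      refine rep_of hp2 a b d X hX hd ?_ y ?_
      · push_cast
        exact sq_mul hx1 hs
      · rw [hy]; push_cast; ring
    · refine rep_of hp2 a b d (4 * b) h4b hd ?_ 0 ?_
      · push_cast
        push_cast at sq4
        have := sq4.mul (sq_mul sb hs)
        rwa [← mul_assoc] at this
      · push_cast; ring
  · refine rep_of hp2 a b d (4 * a) h4a hd ?_ 0 ?_
    · push_cast
      push_cast at sq4
      have := sq4.mul (sq_mul sa hs)
      rwa [← mul_assoc] at this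
    · push_cast; ring

theorem ptn : PTN := by
  intro p hp a b d hp2 ha hd
  by_cases hs : IsSquare (d : ZMod p)
  · exact Or.inl (sqp hp2 d hd hs)
  have h4 := ndvd_four hp2
  have sa : ¬ IsSquare (a : ZMod p) := ZMod.nonsquare_iff_jacobiSym_eq_neg_one.1 ha
  have ha' : ¬ (p : ℤ) ∣ a := by
    rw [← ZMod.intCast_zmod_eq_zero_iff_dvd]
    intro h
    rw [h] at sa
    exact sa IsSquare.zero
  have sq4 : IsSquare ((4 : ℤ) : ZMod p) := ⟨2, by norm_num⟩
  refine rep_of hp2 a b d (4 * a) (ndvd_mul h4 ha') hd ?_ 0 ?_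
  · push_cast
    push_cast at sq4
    have := sq4.mul (sq_mul sa hs)
    rwa [← mul_assoc] at this
  · push_cast; ring

/-- a unit nonsquare class of a point -/
theorem ex_f (p : ℕ) [hp : Fact p.Prime] (a b : ℤ) (hp2 : p ≠ 2) (ha : (p : ℤ) ∣ a)
    (hb : ¬ (p : ℤ) ∣ b) : ∃ f : ℤ, ¬ IsSquare (f : ZMod p) ∧ Rep a b ℚ_[p] f := by
  by_cases sb : IsSquare (b : ZMod p)
  · obtain ⟨t, ht⟩ := exS hp2 (cast_ne hb)
    obtain ⟨t, rfl⟩ := ZMod.intCast_surjective t
    have ht0 : (t : ZMod p) ≠ 0 := by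
      intro h
      rw [h] at ht
      apply ht
      simpa using sb
    have hf : ¬ IsSquare (((b + t ^ 2 : ℤ)) : ZMod p) := by push_cast; exact ht
    have hf0 : ((b + t ^ 2 : ℤ) : ZMod p) ≠ 0 := by
      intro h
      rw [h] at hf
      exact hf IsSquare.zero
    refine ⟨b + t ^ 2, hf, ?_⟩
    obtain ⟨f, hfd⟩ : ∃ f : ℤ, f = b + t ^ 2 := ⟨_, rfl⟩
    rw [← hfd] at hf hf0 ⊢
    have ha0 : (a : ZMod p) = 0 := (ZMod.intCast_zmod_eq_zero_iff_dvd _ _).2 ha
    have h20 : (2 : ZMod p) ≠ 0 := by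
      have := cast_ne (ndvd_two hp2)
      exact_mod_cast this
    have e : ((4 * f * (4 * f - 4 * a) * (4 * f - 4 * b) : ℤ) : ZMod p) =
        (2 ^ 3 * (f * t)) * (2 ^ 3 * (f * t)) := by
      have : 4 * f * (4 * f - 4 * a) * (4 * f - 4 * b) = 64 * f * (f - a) * t ^ 2 := by
        rw [hfd]; ring
      rw [this]
      push_cast
      rw [ha0]
      ring
    have e0 : (2 ^ 3 * ((f : ZMod p) * t)) ≠ 0 :=
      mul_ne_zero (pow_ne_zero 3 h20) (mul_ne_zero hf0 ht0)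
    obtain ⟨y, hy⟩ := sqp hp2 (4 * f * (4 * f - 4 * a) * (4 * f - 4 * b))
      (by
        rw [← ZMod.intCast_zmod_eq_zero_iff_dvd, e]
        exact mul_ne_zero e0 e0) ⟨_, e⟩
    refine Or.inr ⟨4 * f, y, 2, two_ne_zero, by ring, ?_⟩
    rw [hy]
    push_cast
    ring
  · exact ⟨b, sb, Or.inr ⟨4 * b, 0, 2, two_ne_zero, by ring, by ring⟩⟩

theorem ex_e (p : ℕ) [hp : Fact p.Prime] (a b d : ℤ) (ha : (p : ℤ) ∣ a)
    (ha2 : ¬ (p : ℤ) ^ 2 ∣ a) (hd : d ≠ 0) : ∃ e : ℤ, e ≠ 0 ∧ Rep a b ℚ_[p] e ∧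
      ∃ (n : ℕ) (u : ℤ), d * e = ((p : ℤ) ^ n) ^ 2 * u ∧ ¬ (p : ℤ) ∣ u := by
  have hfin : FiniteMultiplicity (p : ℤ) d := by
    rw [Int.finiteMultiplicity_iff]
    refine ⟨?_, hd⟩
    simpa using hp.out.one_lt.ne'
  obtain ⟨u, hu, hpu⟩ := hfin.exists_eq_pow_mul_and_not_dvd
  obtain ⟨m, hm⟩ : ∃ m : ℕ, m = multiplicity (p : ℤ) d := ⟨_, rfl⟩
  rw [← hm] at hu
  obtain ⟨a', rfl⟩ := ha
  have ha' : ¬ (p : ℤ) ∣ a' := by
    intro h
    apply ha2
    rw [sq]
    exact mul_dvd_mul_left _ h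
  rcases Nat.even_or_odd' m with ⟨n, hn | hn⟩
  · refine ⟨1, one_ne_zero, Or.inl ⟨1, by norm_num⟩, n, u, ?_, hpu⟩
    rw [mul_one, hu, hn]
    ring
  · refine ⟨p * a', ?_, Or.inr ⟨4 * ((p * a' : ℤ) : ℚ_[p]), 0, 2, two_ne_zero, by ring, by ring⟩,
      n + 1, u * a', ?_, ndvd_mul hpu ha'⟩
    · rintro h
      rw [h] at ha2
      exact ha2 (dvd_zero _)
    · rw [hu, hn]
      ring

theorem pts : PTS := by
  intro p hp a b d hp2 ha ha2 hb hd
  obtain ⟨e, he0, he, n, u, hu, hpu⟩ := ex_e p a b d ha ha2 hd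
  obtain ⟨f, hf, hrf⟩ := ex_f p a b hp2 ha hb
  have hf' : ¬ (p : ℤ) ∣ f := by
    rw [← ZMod.intCast_zmod_eq_zero_iff_dvd]
    intro h
    rw [h] at hf
    exact hf IsSquare.zero
  by_cases hs : IsSquare (u : ZMod p)
  · obtain ⟨z, hz⟩ := sqp hp2 u hpu hs
    refine ⟨e, 1, he0, one_ne_zero, he, Or.inl ⟨1, by norm_num⟩, (p : ℚ_[p]) ^ n * z, ?_⟩
    rw [mul_one, hu, mul_pow, hz]
    push_cast
    ring
  · obtain ⟨z, hz⟩ := sqp hp2 (u * f) (ndvd_mul hpu hf') (by push_cast; exact sq_mul hs hf)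
    refine ⟨e, f, he0, ?_, he, hrf, (p : ℚ_[p]) ^ n * z, ?_⟩
    · rintro rfl
      exact hf' (dvd_zero _)
    · rw [hu, mul_pow, hz]
      push_cast
      ring

theorem sq_of_mod (a : ℤ) (ha : a % 8 = 1) : ∃ s : ℤ_[2], s ^ 2 = (a : ℤ_[2]) := by
  have h8 : ((2 ^ 3 : ℕ) : ℤ) ∣ 1 - a := by
    push_cast
    omega
  have h1 : ‖((1 - a : ℤ) : ℤ_[2])‖ ≤ ((2 : ℕ) : ℝ) ^ (-(3 : ℕ) : ℤ) := by
    rw [PadicInt.norm_int_le_pow_iff_dvd]
    exact_mod_cast h8
  have h2 : ‖(2 : ℤ_[2])‖ = 1 / 2 := by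
    have := PadicInt.norm_p (p := 2)
    push_cast at this
    rw [this]
    norm_num
  obtain ⟨z, hz, _⟩ := hensels_lemma (p := 2) (F := Polynomial.X ^ 2 - Polynomial.C (a : ℤ_[2]))
    (a := (1 : ℤ_[2])) (by
      simp only [Polynomial.eval_sub, Polynomial.eval_pow, Polynomial.eval_X, Polynomial.eval_C,
        one_pow, Polynomial.derivative_sub, Polynomial.derivative_X_pow, Polynomial.derivative_C,
        sub_zero, Polynomial.eval_mul, Nat.cast_ofNat, Polynomial.aeval_def]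
      have e1 : (1 : ℤ_[2]) - (a : ℤ_[2]) = ((1 - a : ℤ) : ℤ_[2]) := by push_cast; ring
      simp [h2]
      rw [e1]
      refine lt_of_le_of_lt h1 ?_
      norm_num)
  refine ⟨z, ?_⟩
  simpa [sub_eq_zero] using hz

theorem ptq : PTQ := by
  constructor
  · intro p hp d hp2 h
    obtain ⟨h1, h2⟩ := jac_one h
    exact sqp hp2 d h1 h2
  · intro d hd
    obtain ⟨s, hs⟩ := sq_of_mod d hd
    refine ⟨(s : ℚ_[2]), ?_⟩
    rw [← PadicInt.coe_pow, hs, PadicInt.coe_intCast]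

end Pool.Agent.W605.LS
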